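import Pool.Agent.Lib.MP_6f5d36_co.Ker

set_option autoImplicit false

/-!
# MP_6f5d36_co : checker for a list of certificates of six points

Every element of the list is `x = u + 2^15 C`: the certificate `C` for the pattern `B + u * 8^10`.
`M` is the mask of all `u`.
-/

noncomputable section

namespace CR.D6

/-- evaluate `n` first -/
def frc (n : Nat) (f : Nat → Bool) : Bool :=
  Nat.rec (motive := fun _ => Bool) (f 0) (fun m _ => f m) (Nat.add n 1)

/-- all certificates are right and `M` is the mask of their vectors -/
def ck6 (B : Nat) (L : List Nat) : Nat → Bool :=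
  List.rec (motive := fun _ => Nat → Bool) (fun M => Nat.beq M 0)
    (fun x _ ih M =>
      frc (Nat.land x 32767) fun u =>
      frc (Nat.shiftRight x 15) fun C =>
      frc (Nat.add B (Nat.mul u 1073741824)) fun P =>
      Bool.rec (motive := fun _ => Bool) false (ih (Nat.xor M (Nat.shiftLeft 1 u))) (Ker.cert6 P C)) L

end CR.D6
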